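import Pool.Agent.EWR.Parity

/-!
Intervals all of whose elements have a common prime factor with one of the end points:
even length and odd end points.
-/

set_option autoImplicit false

namespace Pool.Agent.EWN

open Pool.Agent.EWR (NC)

/-- the primes below `d` which divide `n` and do not divide `d` -/
def primesOf (n d : ℕ) : Finset ℕ :=
  (Finset.range d).filter fun p => p.Prime ∧ p ∣ n ∧ ¬ p ∣ d

theorem mem_primesOf {n d p : ℕ} : p ∈ primesOf n d ↔ p < d ∧ p.Prime ∧ p ∣ n ∧ ¬ p ∣ d := by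
  simp [primesOf]

/-- `x` coprime to `a` and `x < d`: a common prime factor of `d - x` and `a + d` -/
theorem right {a d x : ℕ} (h : NC a d) (h0 : 0 < x) (h1 : x < d) (hx : Nat.Coprime x a) :
    ∃ p, p.Prime ∧ p ∣ d - x ∧ p ∣ a + d := by
  have h2 := h (a + x) (by omega) (by omega)
  have h3 : Nat.gcd (a + x) a = 1 := by
    rw [Nat.add_comm, Nat.gcd_add_self_left]; exact hx
  rw [h3] at h2
  obtain ⟨p, hp, hp1⟩ := Nat.exists_prime_and_dvd (n := Nat.gcd (a + x) (a + d)) (by omega)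
  refine ⟨p, hp, ?_, hp1.trans (Nat.gcd_dvd_right _ _)⟩
  have h4 := Nat.dvd_sub (hp1.trans (Nat.gcd_dvd_right _ _)) (hp1.trans (Nat.gcd_dvd_left _ _))
  have h5 : a + d - (a + x) = d - x := by omega
  rwa [h5] at h4

/-- `x` coprime to `a + d` and `x < d`: a common prime factor of `d - x` and `a` -/
theorem left {a d x : ℕ} (h : NC a d) (h0 : 0 < x) (h1 : x < d) (hx : Nat.Coprime x (a + d)) :
    ∃ p, p.Prime ∧ p ∣ d - x ∧ p ∣ a := by
  have h2 := h (a + d - x) (by omega) (by omega)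
  have h3 : Nat.gcd (a + d - x) (a + d) = 1 := by
    rw [← Nat.gcd_self_sub_left (by omega : a + d - x ≤ a + d)]
    have h4 : a + d - (a + d - x) = x := by omega
    rw [h4]; exact hx
  rw [h3] at h2
  obtain ⟨p, hp, hp1⟩ := Nat.exists_prime_and_dvd (n := Nat.gcd (a + d - x) a) (by omega)
  refine ⟨p, hp, ?_, hp1.trans (Nat.gcd_dvd_right _ _)⟩
  have h4 := Nat.dvd_sub (hp1.trans (Nat.gcd_dvd_left _ _)) (hp1.trans (Nat.gcd_dvd_right _ _))
  have h5 : a + d - x - a = d - x := by omega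
  rwa [h5] at h4

theorem core {d n b : ℕ} (hd : Even d) (hn : Odd n) (hb : Odd b)
    (hc : ∀ p : ℕ, p.Prime → p ∣ n → p ∣ b → p ∣ d)
    (H : ∀ x : ℕ, 0 < x → x < d → Nat.Coprime x b → ∃ p, p.Prime ∧ p ∣ d - x ∧ p ∣ n) :
    d ^ 8 ≤ 2 ^ (((primesOf n d).card + 4) ^ 2) := by
  classical
  by_contra hcon
  push Not at hcon
  obtain ⟨r, hr⟩ : ∃ r, r = (primesOf n d).card := ⟨_, rfl⟩
  rw [← hr] at hcon
  let f : Fin r ↪o ℕ := (primesOf n d).orderEmbOfFin hr.symm
  let q : ℕ → ℕ := fun i => if h : i < r then f ⟨i, h⟩ else 0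
  have q1 : ∀ i, i < r → q i ∈ primesOf n d := by
    intro i hi
    simp only [q, dif_pos hi]
    exact Finset.orderEmbOfFin_mem _ _ _
  have q2 : ∀ i j, i < j → j < r → q i < q j := by
    intro i j hij hj
    simp only [q, dif_pos hj, dif_pos (hij.trans hj)]
    exact f.strictMono (by exact hij)
  have q3 : ∀ p ∈ primesOf n d, ∃ i, i < r ∧ q i = p := by
    intro p hp
    have h1 : p ∈ Set.range f := by
      rw [Finset.range_orderEmbOfFin]; exact hp
    obtain ⟨i, hi⟩ := h1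
    exact ⟨i, i.2, by simp only [q, dif_pos i.2]; exact hi⟩
  have q5 : ∀ i, i < r → (q i).Prime ∧ q i ∣ n ∧ ¬ q i ∣ d := fun i hi =>
    (mem_primesOf.1 (q1 i hi)).2
  have q6 : ∀ i, i < r → q i ≠ 2 := by
    intro i hi h
    exact (q5 i hi).2.2 (h ▸ hd.two_dvd)
  have q7 : ∀ i, i < r → 3 ≤ q i := by
    intro i hi
    have := (q5 i hi).1.two_le
    have := q6 i hi
    omega
  -- the choice of `s`
  have hex : ∃ s, s ≤ r ∧ ∀ j, s ≤ j → j < r → 2 ^ (r - 2 * s) ≤ q j :=
    ⟨r, le_rfl, fun j h h' => absurd h' (by omega)⟩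
  obtain ⟨s, hs, hmin⟩ : ∃ s, (s ≤ r ∧ ∀ j, s ≤ j → j < r → 2 ^ (r - 2 * s) ≤ q j) ∧
      ∀ s', s' < s → ¬ (s' ≤ r ∧ ∀ j, s' ≤ j → j < r → 2 ^ (r - 2 * s') ≤ q j) :=
    ⟨Nat.find hex, Nat.find_spec hex, fun s' h => Nat.find_min hex h⟩
  obtain ⟨hs1, hs2⟩ := hs
  have hsmall : 2 * s ≤ r ∧ ∀ i, i < s → q i < 2 ^ (r - 2 * s + 2) := by
    rcases Nat.eq_zero_or_pos s with h0 | h0
    · subst h0
      exact ⟨by omega, fun i hi => absurd hi (by omega)⟩
    · have h1 := hmin (s - 1) (by omega)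
      push Not at h1
      obtain ⟨j, hj1, hj2, hj3⟩ := h1 (by omega)
      have h2 : ∀ i, i < s → q i < 2 ^ (r - 2 * (s - 1)) := by
        intro i hi
        rcases Nat.lt_or_ge i j with h | h
        · exact (q2 i j h hj2).trans hj3
        · have : i = j := by omega
          rw [this]; exact hj3
      have h3 := h2 (s - 1) (by omega)
      have h4 := q7 (s - 1) (by omega)
      have h5 : 2 ≤ r - 2 * (s - 1) := by
        by_contra h6
        have h7 : 2 ^ (r - 2 * (s - 1)) ≤ 2 ^ 1 := Nat.pow_le_pow_right (by norm_num) (by omega)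
        omega
      have h6 : r - 2 * (s - 1) = r - 2 * s + 2 := by omega
      rw [h6] at h2
      exact ⟨by omega, h2⟩
  obtain ⟨hs3, hs4⟩ := hsmall
  obtain ⟨t, ht⟩ : ∃ t, t = r - 2 * s := ⟨_, rfl⟩
  rw [← ht] at hs2 hs4
  -- the product of the `s` smallest primes
  obtain ⟨Q, hQ⟩ : ∃ Q, Q = ∏ i ∈ Finset.range s, q i := ⟨_, rfl⟩
  have hQ1 : Q ≤ 2 ^ ((t + 2) * s) := by
    rw [hQ, pow_mul]
    refine (Finset.prod_le_pow_card (Finset.range s) q (2 ^ (t + 2)) ?_).trans_eq ?_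
    · intro i hi
      exact (hs4 i (Finset.mem_range.1 hi)).le
    · rw [Finset.card_range]
  have hQ0 : 0 < Q := by
    rw [hQ]
    refine Finset.prod_pos fun i hi => ?_
    have := q7 i ((Finset.mem_range.1 hi).trans_le hs1)
    omega
  have hQd : ∀ p : ℕ, p.Prime → p ∣ Q → ∃ i, i < s ∧ p = q i := by
    intro p hp h
    rw [hQ] at h
    obtain ⟨i, hi, h1⟩ := (Prime.dvd_finsetProd_iff hp.prime q).1 h
    have hi' := Finset.mem_range.1 hi
    exact ⟨i, hi', (Nat.prime_dvd_prime_iff_eq hp (q5 i (by omega)).1).1 h1⟩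
  have hbig : 2 ^ ((t + 2) * (s + 1)) < d := by
    have h1 : 8 * ((t + 2) * (s + 1)) ≤ (r + 4) ^ 2 := by
      obtain ⟨u, hu⟩ : ∃ u, r = 2 * s + u := ⟨r - 2 * s, by omega⟩
      have hu' : t = u := by omega
      subst hu'
      rw [hu]
      nlinarith [sq_nonneg ((2 * s : ℤ) - t), (Int.ofNat_le).2 (Nat.zero_le s),
        mul_self_nonneg ((2 * s : ℤ) - t)]
    have h2 : (2 ^ ((t + 2) * (s + 1))) ^ 8 < d ^ 8 := by
      refine lt_of_le_of_lt ?_ hcon
      rw [← pow_mul]
      exact Nat.pow_le_pow_right (by norm_num) (by omega)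
    exact lt_of_pow_lt_pow_left₀ 8 (Nat.zero_le _) h2
  -- the multipliers
  let M : Finset ℕ := (Finset.range (t + 1)).image (fun k => 2 ^ k) ∪ (Finset.range s).image q
  have hM1 : M.card = t + 1 + s := by
    rw [Finset.card_union_of_disjoint, Finset.card_image_of_injective, Finset.card_image_of_injOn,
      Finset.card_range, Finset.card_range]
    · intro i hi j hj hij
      have hi' := Finset.mem_range.1 (Finset.mem_coe.1 hi)
      have hj' := Finset.mem_range.1 (Finset.mem_coe.1 hj)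
      rcases lt_trichotomy i j with h | h | h
      · exact absurd hij (q2 i j h (by omega)).ne
      · exact h
      · exact absurd hij (q2 j i h (by omega)).ne'
    · exact Nat.pow_right_injective le_rfl
    · rw [Finset.disjoint_left]
      intro x hx hx'
      obtain ⟨k, -, hk⟩ := Finset.mem_image.1 hx
      obtain ⟨i, hi, hi'⟩ := Finset.mem_image.1 hx'
      have h1 := q5 i (by have := Finset.mem_range.1 hi; omega)
      have h2 : (q i) ∣ 2 ^ k := by rw [hi', ← hk]
      have h3 := (Nat.prime_dvd_prime_iff_eq h1.1 Nat.prime_two).1 (h1.1.dvd_of_dvd_pow h2)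
      exact q6 i (by have := Finset.mem_range.1 hi; omega) h3
  have hM2 : ∀ m ∈ M, 0 < m ∧ m ≤ 2 ^ (t + 2) ∧
      (∀ j, s ≤ j → j < r → m ≤ q j) ∧ ∀ p : ℕ, p.Prime → p ∣ m → p = 2 ∨ ∃ i, i < s ∧ p = q i := by
    intro m hm
    rcases Finset.mem_union.1 hm with h | h
    · obtain ⟨k, hk, rfl⟩ := Finset.mem_image.1 h
      have hk' := Finset.mem_range.1 hk
      refine ⟨by positivity, Nat.pow_le_pow_right (by norm_num) (by omega), ?_, ?_⟩
      · intro j hj hj'
        exact (Nat.pow_le_pow_right (by norm_num) (by omega)).trans (hs2 j hj hj')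
      · intro p hp h1
        exact Or.inl ((Nat.prime_dvd_prime_iff_eq hp Nat.prime_two).1 (hp.dvd_of_dvd_pow h1))
    · obtain ⟨i, hi, rfl⟩ := Finset.mem_image.1 h
      have hi' := Finset.mem_range.1 hi
      refine ⟨(q5 i (by omega)).1.pos, (hs4 i hi').le, ?_, ?_⟩
      · intro j hj hj'
        exact (q2 i j (by omega) hj').le
      · intro p hp h1
        exact Or.inr ⟨i, hi', (Nat.prime_dvd_prime_iff_eq hp (q5 i (by omega)).1).1 h1⟩
  -- the covering primes
  have hcov : ∀ m ∈ M, ∃ j, s ≤ j ∧ j < r ∧ q j ∣ d - m * Q ∧ m * Q < d := by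
    intro m hm
    obtain ⟨m0, m1, m2, m3⟩ := hM2 m hm
    have hx0 : 0 < m * Q := Nat.mul_pos m0 hQ0
    have hx1 : m * Q < d := by
      refine lt_of_le_of_lt ?_ hbig
      calc m * Q ≤ 2 ^ (t + 2) * 2 ^ ((t + 2) * s) := Nat.mul_le_mul m1 hQ1
        _ = 2 ^ ((t + 2) * (s + 1)) := by rw [← pow_add]; ring_nf
    have hxp : ∀ p : ℕ, p.Prime → p ∣ m * Q → p = 2 ∨ ∃ i, i < s ∧ p = q i := by
      intro p hp h
      rcases (Nat.Prime.dvd_mul hp).1 h with h | h
      · exact m3 p hp h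
      · exact Or.inr (hQd p hp h)
    have hcop : Nat.Coprime (m * Q) b := by
      rw [Nat.coprime_iff_gcd_eq_one]
      by_contra hne
      obtain ⟨p, hp, hp1⟩ := Nat.exists_prime_and_dvd hne
      have hpb := hp1.trans (Nat.gcd_dvd_right _ _)
      rcases hxp p hp (hp1.trans (Nat.gcd_dvd_left _ _)) with rfl | ⟨i, hi, rfl⟩
      · exact (Nat.not_even_iff_odd.2 hb) (even_iff_two_dvd.2 hpb)
      · exact (q5 i (by omega)).2.2 (hc _ hp (q5 i (by omega)).2.1 hpb)
    obtain ⟨p, hp, hp1, hp2⟩ := H (m * Q) hx0 hx1 hcop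
    have hpd : ¬ p ∣ d := by
      intro h
      have h1 : p ∣ m * Q := by
        have := (Nat.dvd_sub_iff_right hx1.le h).1 hp1
        exact this
      rcases hxp p hp h1 with rfl | ⟨i, hi, rfl⟩
      · exact (Nat.not_even_iff_odd.2 hn) (even_iff_two_dvd.2 hp2)
      · exact (q5 i (by omega)).2.2 h
    have hplt : p < d := by
      have := Nat.le_of_dvd (by omega) hp1
      omega
    obtain ⟨j, hj, rfl⟩ := q3 p (mem_primesOf.2 ⟨hplt, hp, hp2, hpd⟩)
    refine ⟨j, ?_, hj, hp1, hx1⟩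
    by_contra hjs
    apply hpd
    have h1 : q j ∣ m * Q := by
      refine Dvd.dvd.mul_left ?_ m
      rw [hQ]
      exact Finset.dvd_prod_of_mem q (Finset.mem_range.2 (by omega))
    exact (Nat.dvd_sub_iff_left hx1.le h1).1 hp1
  choose! g g1 g2 g3 g4 using hcov
  have hcard : ((Finset.range r) \ (Finset.range s)).card < M.card := by
    rw [Finset.card_sdiff_of_subset (by simpa using hs1), Finset.card_range, Finset.card_range, hM1]
    omega
  obtain ⟨x, hx, y, hy, hxy, hg⟩ := Finset.exists_ne_map_eq_of_card_lt_of_maps_to hcard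
    (f := g) (fun m hm => Finset.mem_coe.2 (Finset.mem_sdiff.2 ⟨Finset.mem_range.2 (g2 m hm),
      fun h => by have := g1 m hm; have := Finset.mem_range.1 h; omega⟩))
  -- two multipliers with the same prime
  have key : ∀ x ∈ M, ∀ y ∈ M, x < y → g x = g y → False := by
    intro x hx y hy hlt hg
    have hj1 := g1 y hy
    have hj2 := g2 y hy
    have e1 := g3 x hx
    have e2 := g3 y hy
    rw [hg] at e1
    have h1 : q (g y) ∣ (d - x * Q) - (d - y * Q) := Nat.dvd_sub e1 e2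
    have h2 : (d - x * Q) - (d - y * Q) = (y - x) * Q := by
      have h3 := g4 x hx
      have h4 := g4 y hy
      have h5 : x * Q ≤ y * Q := Nat.mul_le_mul_right Q hlt.le
      rw [Nat.sub_mul]
      omega
    rw [h2] at h1
    rcases (Nat.Prime.dvd_mul (q5 _ hj2).1).1 h1 with h | h
    · have h3 := Nat.le_of_dvd (by omega) h
      have h5 := (hM2 y hy).2.2.1 _ hj1 hj2
      have h6 := (hM2 x hx).1
      omega
    · obtain ⟨i, hi, h3⟩ := hQd _ (q5 _ hj2).1 h
      have h4 := q2 i (g y) (by omega) hj2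
      omega
  rcases lt_or_gt_of_ne hxy with h | h
  · exact key x hx y hy h hg
  · exact key y hy x hx h hg.symm

theorem many (a d : ℕ) (hd : Even d) (ha : Odd a) (h : NC a d) :
    d ^ 8 ≤ 2 ^ (((primesOf a d).card + 4) ^ 2) ∧
      d ^ 8 ≤ 2 ^ (((primesOf (a + d) d).card + 4) ^ 2) := by
  have hb : Odd (a + d) := ha.add_even hd
  constructor
  · refine core hd ha hb ?_ fun x h0 h1 h2 => left h h0 h1 h2
    intro p _ h1 h2
    exact (Nat.dvd_add_right h1).1 h2
  · refine core hd hb ha ?_ fun x h0 h1 h2 => right h h0 h1 h2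
    intro p _ h1 h2
    exact (Nat.dvd_add_right h2).1 h1

/-- the bound with a logarithm -/
theorem log_form {d r : ℕ} (h : d ^ 8 ≤ 2 ^ ((r + 4) ^ 2)) :
    Real.sqrt (8 * Real.logb 2 d) - 4 ≤ r := by
  rcases Nat.eq_zero_or_pos d with rfl | hd
  · simp only [Nat.cast_zero, Real.logb_zero, mul_zero, Real.sqrt_zero]
    have : (0 : ℝ) ≤ r := Nat.cast_nonneg r
    linarith
  · have h1 : (d : ℝ) ^ 8 ≤ 2 ^ ((r + 4) ^ 2) := by exact_mod_cast h
    have hd' : (0 : ℝ) < d := by exact_mod_cast hd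
    have h2 := Real.logb_le_logb_of_le (b := 2) (by norm_num) (by positivity) h1
    rw [Real.logb_pow, Real.logb_pow, Real.logb_self_eq_one (by norm_num), mul_one] at h2
    have h3 : Real.sqrt (8 * Real.logb 2 d) ≤ r + 4 := by
      rw [Real.sqrt_le_left (by positivity)]
      push_cast at h2
      exact h2
    linarith

end Pool.Agent.EWN
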